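import Pool.Agent.W894.HT.Gr

/-!
# Project HT: RUN2, a clean path runs through the stages
-/

set_option autoImplicit false

namespace Pool.Agent.W494.HTRun2

open Pool.Agent.W894.HT

/-- `L` is the route `α` of the stage `k` -/
def St (S : Stg) (k : ℕ) (α : Bool) (L : List Lb) : Prop :=
  ∃ p, S[k]? = some p ∧ L = if α = true then p.2 else p.1

theorem St.inj {S : Stg} {k : ℕ} {α : Bool} {L L' : List Lb} (h : St S k α L) (h' : St S k α L') :
    L = L' := by
  obtain ⟨p, hp, rfl⟩ := h
  obtain ⟨p', hp', rfl⟩ := h'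
  rw [hp] at hp'
  rw [Option.some.inj hp']

theorem mem_EE {S : Stg} {u v : Nm} (h : (u, v) ∈ EE S) :
    ∃ k α L, St S k α L ∧ (u, v) ∈ rE k α L := by
  unfold EE at h
  rw [List.mem_flatMap] at h
  obtain ⟨⟨p, k⟩, hp, h⟩ := h
  rw [List.mk_mem_zipIdx_iff_getElem?] at hp
  rw [List.mem_append] at h
  rcases h with h | h
  · exact ⟨k, false, p.1, ⟨p, hp, by simp⟩, h⟩
  · exact ⟨k, true, p.2, ⟨p, hp, by simp⟩, h⟩

theorem mem_rE {k : ℕ} {α : Bool} {L : List Lb} {u v : Nm} (h : (u, v) ∈ rE k α L) :
    (u = hub k ∧ v = rv k α 0) ∨ (∃ i a, L[i]? = some a ∧ (u, v) ∈ gE k α i a) ∨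
      (u = rv k α L.length ∧ v = hub (k + 1)) := by
  unfold rE at h
  simp only [List.cons_append, List.mem_cons, List.mem_append, List.not_mem_nil, or_false,
    Prod.mk.injEq] at h
  rcases h with h | h | h
  · exact Or.inl h
  · rw [List.mem_flatMap] at h
    obtain ⟨⟨a, i⟩, hp, h⟩ := h
    rw [List.mk_mem_zipIdx_iff_getElem?] at hp
    exact Or.inr (Or.inl ⟨i, a, hp, h⟩)
  · exact Or.inr (Or.inr h)

theorem lt_of_get {L : List Lb} {i : ℕ} {a : Lb} (h : L[i]? = some a) : i < L.length := by
  by_contra hc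
  rw [List.getElem?_eq_none (not_lt.1 hc)] at h
  exact absurd h (by simp)

theorem N_rv {S : Stg} {k : ℕ} {α : Bool} {i : ℕ} {v : Nm} (h : adS S (rv k α i) v = true) :
    ∃ L, St S k α L ∧ ((i = 0 ∧ v = hub k) ∨ (i = L.length ∧ v = hub (k + 1)) ∨
      (i < L.length ∧ (v = rv k α (i + 1) ∨ v = yv k α i)) ∨
      ∃ j, i = j + 1 ∧ j < L.length ∧ (v = rv k α j ∨ v = xv k α j)) := by
  unfold adS at h
  rw [Bool.or_eq_true, decide_eq_true_eq, decide_eq_true_eq] at h
  rcases h with h | h
  · obtain ⟨k', α', L, hS, h⟩ := mem_EE h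
    rcases mem_rE h with ⟨h1, h2⟩ | ⟨i', a, ha, h1⟩ | ⟨h1, h2⟩
    · exact absurd h1 (by simp [hub, rv])
    · have hi := lt_of_get ha
      simp only [gE, List.mem_cons, List.not_mem_nil, or_false, Prod.mk.injEq] at h1
      rcases h1 with ⟨h1, h2⟩ | ⟨h1, h2⟩ | ⟨h1, h2⟩ | ⟨h1, h2⟩ | ⟨h1, h2⟩ | ⟨h1, h2⟩
      · simp only [rv, Prod.mk.injEq, true_and] at h1
        obtain ⟨rfl, rfl, rfl⟩ := h1
        exact ⟨L, hS, Or.inr (Or.inr (Or.inl ⟨hi, Or.inl h2⟩))⟩
      · simp only [rv, Prod.mk.injEq, true_and] at h1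
        obtain ⟨rfl, rfl, rfl⟩ := h1
        exact ⟨L, hS, Or.inr (Or.inr (Or.inl ⟨hi, Or.inr h2⟩))⟩
      · exact absurd h1 (by simp [rv, yv])
      · exact absurd h1 (by simp [rv, xv])
      · exact absurd h1 (by simp [rv, sh])
      · exact absurd h1 (by simp [rv, sh])
    · simp only [rv, Prod.mk.injEq, true_and] at h1
      obtain ⟨rfl, rfl, rfl⟩ := h1
      exact ⟨L, hS, Or.inr (Or.inl ⟨rfl, h2⟩)⟩
  · obtain ⟨k', α', L, hS, h⟩ := mem_EE h
    rcases mem_rE h with ⟨h2, h1⟩ | ⟨i', a, ha, h1⟩ | ⟨h2, h1⟩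
    · simp only [rv, Prod.mk.injEq, true_and] at h1
      obtain ⟨rfl, rfl, rfl⟩ := h1
      exact ⟨L, hS, Or.inl ⟨rfl, h2⟩⟩
    · have hi := lt_of_get ha
      simp only [gE, List.mem_cons, List.not_mem_nil, or_false, Prod.mk.injEq] at h1
      rcases h1 with ⟨h2, h1⟩ | ⟨h2, h1⟩ | ⟨h2, h1⟩ | ⟨h2, h1⟩ | ⟨h2, h1⟩ | ⟨h2, h1⟩
      · simp only [rv, Prod.mk.injEq, true_and] at h1
        obtain ⟨rfl, rfl, rfl⟩ := h1
        exact ⟨L, hS, Or.inr (Or.inr (Or.inr ⟨i', rfl, hi, Or.inl h2⟩))⟩
      · exact absurd h1 (by simp [rv, yv])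
      · exact absurd h1 (by simp [rv, xv])
      · simp only [rv, Prod.mk.injEq, true_and] at h1
        obtain ⟨rfl, rfl, rfl⟩ := h1
        exact ⟨L, hS, Or.inr (Or.inr (Or.inr ⟨i', rfl, hi, Or.inr h2⟩))⟩
      · exact absurd h1 (by simp [rv, xv])
      · exact absurd h1 (by simp [rv, yv])
    · exact absurd h1 (by simp [rv, hub])

theorem N_hub {S : Stg} {k : ℕ} {v : Nm} (h : adS S (hub k) v = true) :
    (∃ α L, St S k α L ∧ v = rv k α 0) ∨
      ∃ k' α L, k = k' + 1 ∧ St S k' α L ∧ v = rv k' α L.length := by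
  unfold adS at h
  rw [Bool.or_eq_true, decide_eq_true_eq, decide_eq_true_eq] at h
  rcases h with h | h
  · obtain ⟨k', α', L, hS, h⟩ := mem_EE h
    rcases mem_rE h with ⟨h1, h2⟩ | ⟨i', a, ha, h1⟩ | ⟨h1, h2⟩
    · simp only [hub, Prod.mk.injEq, true_and, and_true] at h1
      subst h1
      exact Or.inl ⟨α', L, hS, h2⟩
    · exfalso
      simp [gE, hub, rv, xv, yv, sh] at h1
    · exact absurd h1 (by simp [rv, hub])
  · obtain ⟨k', α', L, hS, h⟩ := mem_EE h
    rcases mem_rE h with ⟨h2, h1⟩ | ⟨i', a, ha, h1⟩ | ⟨h2, h1⟩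
    · exact absurd h1 (by simp [rv, hub])
    · exfalso
      simp [gE, hub, rv, xv, yv, sh] at h1
    · simp only [hub, Prod.mk.injEq, true_and, and_true] at h1
      exact Or.inr ⟨k', α', L, h1, hS, h2⟩

theorem mem_gads {S : Stg} {k : ℕ} {α : Bool} {L : List Lb} (hS : St S k α L) {i : ℕ} {a : Lb}
    (ha : L[i]? = some a) : (k, α, i, a) ∈ gads S := by
  obtain ⟨p, hp, rfl⟩ := hS
  unfold gads
  rw [List.mem_flatMap]
  refine ⟨(p, k), List.mk_mem_zipIdx_iff_getElem?.2 hp, ?_⟩
  rw [List.mem_append]
  cases α with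
  | false =>
    left
    rw [List.mem_map]
    exact ⟨(a, i), List.mk_mem_zipIdx_iff_getElem?.2 (by simpa using ha), rfl⟩
  | true =>
    right
    rw [List.mem_map]
    exact ⟨(a, i), List.mk_mem_zipIdx_iff_getElem?.2 (by simpa using ha), rfl⟩

theorem split_uniq {N : Type} {u : N} : ∀ {A B A' B' : List N}, (A ++ u :: B).Nodup →
    A ++ u :: B = A' ++ u :: B' → A = A' ∧ B = B'
  | [], B, [], B', _, h => by simpa using h
  | [], B, c :: A', B', hn, h => by
    exfalso
    simp only [List.nil_append, List.cons_append, List.cons.injEq] at h hn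
    obtain ⟨rfl, h⟩ := h
    rw [h] at hn
    simp at hn
  | c :: A, B, [], B', hn, h => by
    exfalso
    simp only [List.nil_append, List.cons_append, List.cons.injEq] at h hn
    obtain ⟨rfl, h⟩ := h
    simp at hn
  | c :: A, B, c' :: A', B', hn, h => by
    simp only [List.cons_append, List.cons.injEq] at h hn
    obtain ⟨rfl, h⟩ := h
    have := split_uniq (List.nodup_cons.1 hn).2 h
    exact ⟨by rw [this.1], this.2⟩

/-- two splittings of `l` at `u` -/
theorem split2 {N : Type} {u : N} {l A B A' B' : List N} (hn : l.Nodup) (h : l = A ++ u :: B)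
    (h' : l = A' ++ u :: B') : A = A' ∧ B = B' := by
  rw [h] at hn h'
  exact split_uniq hn h'

theorem chain_at {N : Type} {R : N → N → Prop} {u v : N} {l A B : List N} (hc : l.IsChain R)
    (h : l = A ++ u :: v :: B) : R u v := by
  rw [h, List.isChain_split] at hc
  exact (List.isChain_cons_cons.1 hc.2).1

section main

variable {S : Stg} {l : List Nm} (hP : isP S l) (hcl : ∀ g ∈ gads S, cln g l)

include hP in
theorem not_last {A : List Nm} {u : Nm} (h : l = A ++ [u]) : u = hub S.length := by
  have h1 := hP.2.2.1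
  rw [h] at h1
  simpa using h1

include hP hcl in
/-- no direct step between consecutive vertices of a route -/
theorem no_direct {k : ℕ} {α : Bool} {L : List Lb} (hS : St S k α L) {i : ℕ} {a : Lb}
    (ha : L[i]? = some a) : ¬ [rv k α i, rv k α (i + 1)] <:+: l ∧
      ¬ [rv k α (i + 1), rv k α i] <:+: l := by
  have hn := hP.1
  rcases hcl _ (mem_gads hS ha) with h | h | h
  · exact ⟨h.2.2.1, h.2.2.2⟩
  · obtain ⟨s, t, h⟩ := h
    have h' : l = s ++ rv k α i :: (yv k α i :: sh a :: xv k α i :: rv k α (i + 1) :: t) := by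
      rw [← h]; simp
    have h'' : l = (s ++ [rv k α i, yv k α i, sh a, xv k α i]) ++ rv k α (i + 1) :: t := by
      rw [← h]; simp
    constructor
    · rintro ⟨s', t', h1⟩
      have h1' : l = s' ++ rv k α i :: (rv k α (i + 1) :: t') := by rw [← h1]; simp
      have := (split2 hn h' h1').2
      simp [rv, yv] at this
    · rintro ⟨s', t', h1⟩
      have h1' : l = s' ++ rv k α (i + 1) :: (rv k α i :: t') := by rw [← h1]; simp
      have h2 := (split2 hn h'' h1').2
      rw [h''] at hn
      rw [h2] at hn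
      simp [List.nodup_append] at hn
  · obtain ⟨s, t, h⟩ := h
    have h' : l = s ++ rv k α (i + 1) :: (xv k α i :: sh a :: yv k α i :: rv k α i :: t) := by
      rw [← h]; simp
    have h'' : l = (s ++ [rv k α (i + 1), xv k α i, sh a, yv k α i]) ++ rv k α i :: t := by
      rw [← h]; simp
    constructor
    · rintro ⟨s', t', h1⟩
      have h1' : l = s' ++ rv k α i :: (rv k α (i + 1) :: t') := by rw [← h1]; simp
      have h2 := (split2 hn h'' h1').2
      rw [h''] at hn
      rw [h2] at hn
      simp [List.nodup_append] at hn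
    · rintro ⟨s', t', h1⟩
      have h1' : l = s' ++ rv k α (i + 1) :: (rv k α i :: t') := by rw [← h1]; simp
      have := (split2 hn h' h1').2
      simp [rv, xv] at this

include hP hcl in
/-- the vertex after `z, rv k α i` -/
theorem next {k : ℕ} {α : Bool} {L : List Lb} (hS : St S k α L) {i : ℕ} {z : Nm}
    {A B : List Nm} (hl : l = A ++ z :: rv k α i :: B) :
    ∃ v B', B = v :: B' ∧ v ≠ z ∧ ((i = 0 ∧ v = hub k) ∨ (i = L.length ∧ v = hub (k + 1)) ∨
      (i < L.length ∧ v = yv k α i) ∨ ∃ j, i = j + 1 ∧ j < L.length ∧ v = xv k α j) := by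
  cases B with
  | nil =>
    exfalso
    have h1 : l = (A ++ [z]) ++ [rv k α i] := by rw [hl]; simp
    have := not_last hP h1
    simp [rv, hub] at this
  | cons v B' =>
    refine ⟨v, B', rfl, ?_, ?_⟩
    · rintro rfl
      have hn := hP.1
      rw [hl] at hn
      simp [List.nodup_append] at hn
    · have h1 : l = (A ++ [z]) ++ rv k α i :: v :: B' := by rw [hl]; simp
      have h2 := chain_at hP.2.2.2 h1
      obtain ⟨L', hS', h3⟩ := N_rv h2
      rw [hS'.inj hS] at h3
      rcases h3 with h3 | h3 | ⟨h3, h4 | h4⟩ | ⟨j, h3, h4, h5 | h5⟩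
      · exact Or.inl h3
      · exact Or.inr (Or.inl h3)
      · exfalso
        obtain ⟨a, ha⟩ : ∃ a, L[i]? = some a := ⟨L[i], List.getElem?_eq_getElem h3⟩
        apply (no_direct hP hcl hS ha).1
        refine ⟨A ++ [z], B', ?_⟩
        rw [h1, h4]; simp
      · exact Or.inr (Or.inr (Or.inl ⟨h3, h4⟩))
      · exfalso
        obtain ⟨a, ha⟩ : ∃ a, L[j]? = some a := ⟨L[j], List.getElem?_eq_getElem h4⟩
        apply (no_direct hP hcl hS ha).2
        refine ⟨A ++ [z], B', ?_⟩
        rw [h1, h5, h3]; simp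
      · exact Or.inr (Or.inr (Or.inr ⟨j, h3, h4, h5⟩))

include hP hcl in
theorem step_y {k : ℕ} {α : Bool} {L : List Lb} (hS : St S k α L) {i : ℕ} {a : Lb}
    (ha : L[i]? = some a) {A B : List Nm} (hl : l = A ++ rv k α i :: yv k α i :: B) :
    ∃ B', B = sh a :: xv k α i :: rv k α (i + 1) :: B' := by
  have hn := hP.1
  rcases hcl _ (mem_gads hS ha) with h | h | h
  · exfalso
    apply h.2.1
    rw [hl]; simp
  · obtain ⟨s, t, h⟩ := h
    have h' : l = s ++ rv k α i :: (yv k α i :: sh a :: xv k α i :: rv k α (i + 1) :: t) := by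
      rw [← h]; simp
    have h2 := (split2 hn hl h').2
    simp only [List.cons.injEq, true_and] at h2
    exact ⟨t, h2⟩
  · exfalso
    obtain ⟨s, t, h⟩ := h
    have h' : l = (s ++ [rv k α (i + 1), xv k α i, sh a]) ++ yv k α i :: (rv k α i :: t) := by
      rw [← h]; simp
    have h'' : l = (A ++ [rv k α i]) ++ yv k α i :: B := by rw [hl]; simp
    have h2 := (split2 hn h'' h').2
    rw [h'', h2] at hn
    simp [List.nodup_append] at hn

include hP hcl in
theorem step_x {k : ℕ} {α : Bool} {L : List Lb} (hS : St S k α L) {i : ℕ} {a : Lb}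
    (ha : L[i]? = some a) {A B : List Nm} (hl : l = A ++ rv k α (i + 1) :: xv k α i :: B) :
    ∃ B', B = sh a :: yv k α i :: rv k α i :: B' := by
  have hn := hP.1
  rcases hcl _ (mem_gads hS ha) with h | h | h
  · exfalso
    apply h.1
    rw [hl]; simp
  · exfalso
    obtain ⟨s, t, h⟩ := h
    have h' : l = (s ++ [rv k α i, yv k α i, sh a]) ++ xv k α i :: (rv k α (i + 1) :: t) := by
      rw [← h]; simp
    have h'' : l = (A ++ [rv k α (i + 1)]) ++ xv k α i :: B := by rw [hl]; simp
    have h2 := (split2 hn h'' h').2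
    rw [h'', h2] at hn
    simp [List.nodup_append] at hn
  · obtain ⟨s, t, h⟩ := h
    have h' : l = s ++ rv k α (i + 1) :: (xv k α i :: sh a :: yv k α i :: rv k α i :: t) := by
      rw [← h]; simp
    have h2 := (split2 hn hl h').2
    simp only [List.cons.injEq, true_and] at h2
    exact ⟨t, h2⟩

include hP hcl in
/-- backward through a route -/
theorem backward {k : ℕ} {α : Bool} {L : List Lb} (hS : St S k α L) : ∀ (i : ℕ) (z : Nm)
    (A B : List Nm), ((i = L.length ∧ z = hub (k + 1)) ∨ (i < L.length ∧ z = yv k α i)) →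
    l = A ++ z :: rv k α i :: B → hub k ∈ B := by
  intro i
  induction i with
  | zero =>
    intro z A B hz hl
    obtain ⟨v, B', rfl, hv, h⟩ := next hP hcl hS hl
    rcases h with h | h | h | ⟨j, hj, -⟩
    · rw [h.2]; simp
    · exfalso
      rcases hz with hz | hz
      · exact hv (h.2.trans hz.2.symm)
      · omega
    · exfalso
      rcases hz with hz | hz
      · omega
      · exact hv (h.2.trans hz.2.symm)
    · omega
  | succ i ih =>
    intro z A B hz hl
    obtain ⟨v, B', rfl, hv, h⟩ := next hP hcl hS hl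
    rcases h with h | h | h | ⟨j, hj, hj2, hj3⟩
    · omega
    · exfalso
      rcases hz with hz | hz
      · exact hv (h.2.trans hz.2.symm)
      · omega
    · exfalso
      rcases hz with hz | hz
      · omega
      · exact hv (h.2.trans hz.2.symm)
    · have hij : i = j := by omega
      subst hij
      obtain ⟨a, ha⟩ : ∃ a, L[i]? = some a := ⟨L[i], List.getElem?_eq_getElem hj2⟩
      have h1 : l = (A ++ [z]) ++ rv k α (i + 1) :: xv k α i :: B' := by rw [hl, hj3]; simp
      obtain ⟨B2, rfl⟩ := step_x hP hcl hS ha h1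
      have h2 : l = (A ++ [z, rv k α (i + 1), xv k α i, sh a]) ++ yv k α i :: rv k α i :: B2 := by
        rw [h1]; simp
      have := ih (yv k α i) _ B2 (Or.inr ⟨hj2, rfl⟩) h2
      simp [this]

include hP hcl in
/-- forward through a route -/
theorem forward {k : ℕ} {α : Bool} {L : List Lb} (hS : St S k α L) : ∀ (L1 L0 : List Lb) (z : Nm)
    (A B : List Nm), L = L0 ++ L1 →
    ((L0.length = 0 ∧ z = hub k) ∨ ∃ j, L0.length = j + 1 ∧ z = xv k α j) →
    l = A ++ z :: rv k α L0.length :: B → ∃ B2, B = ((L1.zipIdx L0.length).flatMap fun p =>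
      [yv k α p.2, sh p.1, xv k α p.2, rv k α (p.2 + 1)]) ++ hub (k + 1) :: B2 := by
  intro L1
  induction L1 with
  | nil =>
    intro L0 z A B hL hz hl
    obtain ⟨v, B', rfl, hv, h⟩ := next hP hcl hS hl
    have hlen : L.length = L0.length := by rw [hL]; simp
    rcases h with h | h | h | ⟨j, hj, hj2, hj3⟩
    · exfalso
      rcases hz with hz | ⟨j, hz, -⟩
      · exact hv (h.2.trans hz.2.symm)
      · omega
    · exact ⟨B', by rw [h.2]; simp⟩
    · omega
    · exfalso
      rcases hz with hz | ⟨j', hz, hz2⟩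
      · omega
      · have : j = j' := by omega
        subst this
        exact hv (hj3.trans hz2.symm)
  | cons a L1 ih =>
    intro L0 z A B hL hz hl
    obtain ⟨v, B', rfl, hv, h⟩ := next hP hcl hS hl
    have hlen : L0.length < L.length := by rw [hL]; simp
    rcases h with h | h | h | ⟨j, hj, hj2, hj3⟩
    · exfalso
      rcases hz with hz | ⟨j, hz, -⟩
      · exact hv (h.2.trans hz.2.symm)
      · omega
    · omega
    · have ha : L[L0.length]? = some a := by rw [hL]; simp
      have h1 : l = (A ++ [z]) ++ rv k α L0.length :: yv k α L0.length :: B' := by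
        rw [hl, h.2]; simp
      obtain ⟨B2, rfl⟩ := step_y hP hcl hS ha h1
      have h2 : l = (A ++ [z, rv k α L0.length, yv k α L0.length, sh a]) ++
          xv k α L0.length :: rv k α (L0 ++ [a]).length :: B2 := by
        rw [h1]; simp
      obtain ⟨B3, hB3⟩ := ih (L0 ++ [a]) (xv k α L0.length) _ B2 (by rw [hL]; simp)
        (Or.inr ⟨L0.length, by simp, rfl⟩) h2
      refine ⟨B3, ?_⟩
      rw [List.zipIdx_cons, List.flatMap_cons, h.2]
      rw [List.length_append] at hB3
      simp only [List.length_singleton] at hB3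
      rw [hB3]
      simp
    · exfalso
      rcases hz with hz | ⟨j', hz, hz2⟩
      · omega
      · have : j = j' := by omega
        subst this
        exact hv (hj3.trans hz2.symm)

theorem last_mem {k : ℕ} {α : Bool} (L : List Lb) : rv k α L.length ∈ word k α L := by
  unfold word
  cases hL : L.reverse with
  | nil =>
    have : L = [] := by simpa using hL
    subst this
    simp
  | cons a R =>
    have h1 : L = R.reverse ++ [a] := by
      rw [← List.reverse_reverse L, hL]; simp
    rw [List.mem_cons]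
    right
    rw [List.mem_flatMap]
    refine ⟨(a, R.reverse.length), ?_, ?_⟩
    · rw [List.mk_mem_zipIdx_iff_getElem?, h1]; simp
    · rw [h1]; simp

include hP hcl in
theorem run : ∀ (S' S0 : Stg) (A B : List Nm), S = S0 ++ S' → l = A ++ hub S0.length :: B →
    (A = [] ∨ ∃ A0 k α L, S0.length = k + 1 ∧ St S k α L ∧ A = A0 ++ hub k :: word k α L) →
    ∃ bs : List Bool, bs.length = S'.length ∧ hub S0.length :: B = pth S0.length S' bs := by
  intro S'
  induction S' with
  | nil =>
    intro S0 A B hS hl _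
    refine ⟨[], rfl, ?_⟩
    have hlen : S.length = S0.length := by rw [hS]; simp
    rcases List.eq_nil_or_concat B with hB | ⟨B', u, hB⟩
    · rw [hB]; rfl
    · exfalso
      have h1 : l = (A ++ hub S0.length :: B') ++ [u] := by rw [hl, hB]; simp
      have h2 := not_last hP h1
      have hn := hP.1
      rw [h1, h2, hlen] at hn
      simp [List.nodup_append] at hn
  | cons pq S' ih =>
    intro S0 A B hS hl hA
    obtain ⟨Pr, Qr⟩ := pq
    have hlen : S0.length < S.length := by rw [hS]; simp
    have hget : S[S0.length]? = some (Pr, Qr) := by rw [hS]; simp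
    cases B with
    | nil =>
      exfalso
      have := not_last hP hl
      simp [hub] at this
      omega
    | cons v B =>
      have hadj : adS S (hub S0.length) v = true :=
        chain_at (R := fun u v => adS S u v = true) hP.2.2.2 hl
      rcases N_hub hadj with ⟨α, L, hSt, hv⟩ | ⟨k, α, L, hk, hSt, hv⟩
      · have hL : L = if α = true then Qr else Pr := hSt.inj ⟨(Pr, Qr), hget, rfl⟩
        subst hv
        obtain ⟨B2, hB2⟩ := forward hP hcl hSt L [] (hub S0.length) A B (by simp)
          (Or.inl ⟨rfl, rfl⟩) hl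
        have h1 : l = (A ++ hub S0.length :: word S0.length α L) ++
            hub (S0 ++ [(Pr, Qr)]).length :: B2 := by
          rw [hl, hB2]
          unfold word
          simp
        obtain ⟨bs, hbs, hpth⟩ := ih (S0 ++ [(Pr, Qr)]) _ B2 (by rw [hS]; simp) h1
          (Or.inr ⟨A, S0.length, α, L, by simp, hSt, rfl⟩)
        refine ⟨α :: bs, by simp [hbs], ?_⟩
        rw [List.length_append, List.length_singleton] at hpth
        show _ = hub S0.length :: (word S0.length α (if α = true then Qr else Pr) ++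
          pth (S0.length + 1) S' bs)
        rw [← hpth, ← hL, hB2]
        unfold word
        simp
      · exfalso
        have hn := hP.1
        rcases hA with hA | ⟨A0, k', β, L', hk', hSt', hA⟩
        · -- `hub` is the first vertex
          have h1 := hP.2.1
          rw [hl, hA] at h1
          simp [hub] at h1
          rw [h1] at hk
          simp at hk
        · have hkk : k = k' := by omega
          subst hkk
          by_cases hαβ : α = β
          · subst hαβ
            have hLL := hSt.inj hSt'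
            subst hLL
            have hmem : rv k α L.length ∈ A := by
              rw [hA]
              have := last_mem (k := k) (α := α) L
              simp [this]
            rw [hl, hv] at hn
            rw [List.nodup_append] at hn
            exact hn.2.2 _ hmem _ (by simp) rfl
          · have h1 : l = A ++ hub (k + 1) :: rv k α L.length :: B := by
              rw [hl, hk, hv]
            have h2 := backward hP hcl hSt L.length (hub (k + 1)) A B (Or.inl ⟨rfl, rfl⟩) h1
            have hmem : hub k ∈ A := by rw [hA]; simp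
            rw [hl] at hn
            rw [List.nodup_append] at hn
            exact hn.2.2 _ hmem _ (by simp [h2]) rfl

end main

/-- the label of a shared vertex -/
def gsh (u : Nm) : Option Lb := if u.1 = 4 then some u.2 else none

theorem word_gsh (k : ℕ) (α : Bool) (L : List Lb) (i : ℕ) :
    ((L.zipIdx i).flatMap fun p => [yv k α p.2, sh p.1, xv k α p.2, rv k α (p.2 + 1)]).filterMap
      gsh = L := by
  induction L generalizing i with
  | nil => rfl
  | cons a L ih =>
    rw [List.zipIdx_cons, List.flatMap_cons, List.filterMap_append, ih]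
    simp [gsh, yv, sh, xv, rv]

theorem pth_gsh : ∀ (S : Stg) (k : ℕ) (bs : List Bool), bs.length = S.length →
    (pth k S bs).filterMap gsh = lbs S bs
  | [], k, bs, h => by
    have : bs = [] := by simpa using h
    subst this
    simp [pth, lbs, gsh, hub]
  | (P, Q) :: S, k, b :: bs, h => by
    have h1 : bs.length = S.length := by simpa using h
    show (hub k :: (word k b (if b = true then Q else P) ++ pth (k + 1) S bs)).filterMap gsh =
      (if b = true then Q else P) ++ lbs S bs
    rw [List.filterMap_cons, List.filterMap_append, pth_gsh S (k + 1) bs h1]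
    unfold word
    rw [List.filterMap_cons, word_gsh]
    simp [gsh, hub, rv]
  | (P, Q) :: S, k, [], h => by simp at h

theorem main : S_RUN2 := by
  intro S l hP hcl
  obtain ⟨B, hB⟩ : ∃ B, l = hub 0 :: B := by
    have h1 := hP.2.1
    cases l with
    | nil => simp at h1
    | cons u B => exact ⟨B, by simpa using h1⟩
  obtain ⟨bs, hbs, hp⟩ := run hP hcl S [] [] B rfl hB (Or.inl rfl)
  have hl : l = pth 0 S bs := hB.trans hp
  refine ⟨bs, hbs, ?_, hl⟩
  rw [← pth_gsh S 0 bs hbs, ← hl]
  refine List.Nodup.filterMap ?_ hP.1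
  intro u u' b hu hu'
  unfold gsh at hu hu'
  split_ifs at hu hu' with h1 h2
  · simp only [Option.mem_def, Option.some.injEq] at hu hu'
    exact Prod.ext (h1.trans h2.symm) (hu.trans hu'.symm)
  · simp at hu'
  · simp at hu
  · simp at hu

end Pool.Agent.W494.HTRun2
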